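import Pool.Agent.W780.BB.Stm
import Pool.Agent.W174.PG.Basic

set_option autoImplicit false

/-!
Existence of itineraries, with a bounded number of reflections.
-/

namespace Pool.Agent.W345.BB

open Complex Set Pool.Agent.W780.PG Pool.Agent.W780.BB Pool.Agent.W174.PG

variable {n : ℕ}

/-- generic data -/
def Gen (p : Fin (n + 3) → ℂ) (B A : ℂ) : Prop :=
  (∀ w j, uf p w (p j) ∉ segment ℝ B A) ∧ (∀ w i, sf p i (fp p w A) ≠ 0)

/-- prepend a value to a sequence -/
def cns {α : Type} (a : α) (f : ℕ → α) : ℕ → α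
  | 0 => a
  | k + 1 => f k

/-- base points -/
def Base (p : Fin (n + 3) → ℂ) (B A : ℂ) : Prop :=
  B ∈ reg p ∨ ∃ k, B ∈ side p k ∧ 0 < sf p k A

/-- `m + 1` crossings -/
def Seq (p : Fin (n + 3) → ℂ) (m : ℕ) (B : ℂ) (L θ : ℝ) : Prop :=
  ∃ (u : ℕ → Fin (n + 3)) (y : ℕ → ℂ) (φ l : ℕ → ℝ) (l₀ : ℝ),
    (∀ k ≤ m, y k ∈ side p (u k)) ∧
    (∀ k < m, 0 < l k ∧ y (k + 1) = y k + l k • dir (φ k) ∧
      φ (k + 1) = 2 * tau p (u (k + 1)) - φ k ∧ u (k + 1) ≠ u k) ∧
    φ 0 = 2 * tau p (u 0) - θ ∧ 0 < l₀ ∧ y 0 = B + l₀ • dir θ ∧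
    l₀ + ∑ k ∈ Finset.range m, l k ≤ L ∧ 0 < sf p (u 0) B

theorem step (href : S_Ref) (hex : S_Exit) {p : Fin (n + 3) → ℂ} (hp : IsConvexPolygon p) {B : ℂ}
    {L θ : ℝ} (hL : 0 ≤ L) (hb : Base p B (B + L • dir θ)) (hg : Gen p B (B + L • dir θ))
    (hA : B + L • dir θ ∉ reg p) :
    ∃ (i : Fin (n + 3)) (l₀ : ℝ), 0 < l₀ ∧ l₀ ≤ L ∧ B + l₀ • dir θ ∈ side p i ∧
      0 < sf p i B ∧ sf p i (B + L • dir θ) < 0 ∧
      cr p i B (B + L • dir θ) = B + l₀ • dir θ ∧
      (∀ j, j ≠ i → 0 < sf p j (B + l₀ • dir θ)) ∧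
      rf p i (B + L • dir θ) = (B + l₀ • dir θ) + (L - l₀) • dir (2 * tau p i - θ) ∧
      Base p (B + l₀ • dir θ) (rf p i (B + L • dir θ)) ∧
      Gen p (B + l₀ • dir θ) (rf p i (B + L • dir θ)) := by
  obtain ⟨r1, r2, r3, r4, r5, r6, r7, r8, r9, r10, r11, r12⟩ := href n p hp
  obtain ⟨i, h1, h2, h3⟩ := hex n p hp B (B + L • dir θ) hb hA (fun j => hg.2 [] j)
    (fun j => hg.1 [] j)
  set A := B + L • dir θ with hAd
  set t := sf p i B / (sf p i B - sf p i A) with ht
  have hd : 0 < sf p i B - sf p i A := by linarith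
  have ht0 : 0 < t := div_pos h1 hd
  have ht1 : t ≤ 1 := by
    rw [ht, div_le_one hd]; linarith
  have hL' : 0 < L := by
    rcases hL.lt_or_eq with h | h
    · exact h
    · exfalso
      rw [hAd, ← h, zero_smul, add_zero] at h2
      exact lt_irrefl _ (h2.trans h1)
  have hcr : cr p i B A = B + (t * L) • dir θ := by
    unfold cr
    rw [← ht, hAd, add_sub_cancel_left, smul_smul]
  have hcr' : cr p i B A = B + t • (A - B) := rfl
  have hseg : cr p i B A ∈ segment ℝ B A := by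
    rw [segment_eq_image']
    exact ⟨t, ⟨ht0.le, ht1⟩, rfl⟩
  have h0 : sf p i (cr p i B A) = 0 := by
    rw [hcr']
    unfold sf at *
    rw [lft_line, ht]
    field_simp
    ring
  have hside : cr p i B A ∈ side p i := by
    apply side_of hp i
    · intro j
      by_cases hj : j = i
      · rw [hj]; exact h0.ge
      · exact (h3 j hj).le
    · exact h0
    · intro k hk
      exact hg.1 [] k (by rw [uf, ← hk]; exact hseg)
  have hA2 : A = cr p i B A + (L - t * L) • dir θ := by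
    rw [hcr, hAd, add_assoc, ← add_smul]
    congr 2
    ring
  have hrc : rf p i (cr p i B A) = cr p i B A := r4 i _ h0
  refine ⟨i, t * L, mul_pos ht0 hL', by nlinarith, by rw [← hcr]; exact hside, h1, h2, hcr,
    by rw [← hcr]; exact h3, ?_, ?_, ?_⟩
  · rw [← hcr]
    conv_lhs => rw [hA2]
    rw [r5, hrc]
  · rw [← hcr]
    right
    exact ⟨i, hside, by rw [r3]; linarith⟩
  · rw [← hcr]
    refine ⟨fun w j hj => ?_, fun w j => hg.2 (i :: w) j⟩
    rw [segment_eq_image'] at hj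
    obtain ⟨s, ⟨s0, s1⟩, hs⟩ := hj
    apply hg.1 (i :: w) j
    rw [uf, ← hs]
    simp only
    rw [r6, hrc, r1, segment_eq_image']
    refine ⟨t + s * (1 - t), ⟨?_, ?_⟩, ?_⟩
    · have := mul_nonneg s0 (sub_nonneg.2 ht1)
      linarith
    · nlinarith
    · simp only
      rw [hcr']
      module

theorem main (href : S_Ref) (hex : S_Exit) {p : Fin (n + 3) → ℂ} (hp : IsConvexPolygon p) (m : ℕ) :
    ∀ (B : ℂ) (L θ : ℝ), 0 ≤ L → Base p B (B + L • dir θ) → Gen p B (B + L • dir θ) →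
      (∃ w : List (Fin (n + 3)), w.length ≤ m ∧ Ch p w B (B + L • dir θ)) ∨ Seq p m B L θ := by
  induction m with
  | zero =>
    intro B L θ hL hb hg
    by_cases hA : B + L • dir θ ∈ reg p
    · left; exact ⟨[], le_rfl, hA⟩
    · right
      obtain ⟨i, l₀, h1, h2, h3, h4, h5, h6, h7, h8, h9, h10⟩ := step href hex hp hL hb hg hA
      exact ⟨fun _ => i, fun _ => B + l₀ • dir θ, fun _ => 2 * tau p i - θ, fun _ => 0, l₀,
        fun k _ => h3, fun k hk => absurd hk (Nat.not_lt_zero k), rfl, h1, rfl, by simpa using h2,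
        h4⟩
  | succ m ih =>
    intro B L θ hL hb hg
    by_cases hA : B + L • dir θ ∈ reg p
    · left; exact ⟨[], Nat.zero_le _, hA⟩
    · obtain ⟨i, l₀, h1, h2, h3, h4, h5, h6, h7, h8, h9, h10⟩ := step href hex hp hL hb hg hA
      rw [h8] at h9 h10
      rcases ih _ _ _ (sub_nonneg.2 h2) h9 h10 with ⟨w, hw, hc⟩ | ⟨u, y, φ, l, l₁, q1, q2, q3, q4, q5, q6, q7⟩
      · left
        refine ⟨i :: w, by simpa using hw, h4, h5, ?_, ?_⟩
        · rw [h6]; exact h7
        · rw [h6, h8]; exact hc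
      · right
        have hz : sf p i (B + l₀ • dir θ) = 0 := (side_facts hp i h3).2.1
        have hne : u 0 ≠ i := by
          intro h
          rw [h, hz] at q7
          exact lt_irrefl _ q7
        refine ⟨cns i u, cns (B + l₀ • dir θ) y, cns (2 * tau p i - θ) φ, cns l₁ l, l₀,
          ?_, ?_, rfl, h1, rfl, ?_, h4⟩
        · intro k hk
          cases k with
          | zero => exact h3
          | succ k => exact q1 k (Nat.le_of_succ_le_succ hk)
        · intro k hk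
          cases k with
          | zero => exact ⟨q4, q5, q3, hne⟩
          | succ k => exact q2 k (Nat.lt_of_succ_lt_succ hk)
        · rw [Finset.sum_range_succ']
          simp only [cns]
          linarith

theorem exist : S_Ref → S_Exit → S_Unif → S_Exist := by
  intro href hex hun n p hp T
  obtain ⟨K, hK⟩ := hun n p hp T
  refine ⟨K + 1, fun z hz A hA h1 h2 => ?_⟩
  have hAe : A = z + ‖A - z‖ • dir (arg (A - z)) := by
    unfold dir
    rw [Complex.real_smul, Complex.norm_mul_exp_arg_mul_I]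
    ring
  have := main href hex hp (K + 1) z ‖A - z‖ (arg (A - z)) (norm_nonneg _) (Or.inl hz)
    (by rw [← hAe]; exact ⟨h1, h2⟩)
  rw [← hAe] at this
  rcases this with h | ⟨u, y, φ, l, l₁, q1, q2, q3, q4, q5, q6, q7⟩
  · exact h
  · exfalso
    have := hK u y φ l (K + 1) q1 q2 (by linarith)
    omega

end Pool.Agent.W345.BB
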